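import Pool.Graph.R_seed8.TH671.DU.Rate

/-!
# Submultiplicative functions on `ℕ^m`: growth rates and duality
-/

set_option autoImplicit false
set_option linter.unusedSectionVars false

namespace Pool.Agent.H67.AS

open scoped Topology
open Pool.Agent.TH671.DU
open Filter

/-- a function on `ℕ^m` like the least degree of a smoothable scheme containing `Γ^β` -/
structure Sub {m : ℕ} (G : (Fin m → ℕ) → ℕ) : Prop where
  zero : G 0 = 1
  add : ∀ β γ, G (β + γ) ≤ G β * G γ
  mono : ∀ β γ, G β ≤ G (β + γ)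

variable {m : ℕ}

/-- the growth rate in the direction `β` -/
noncomputable def R (G : (Fin m → ℕ) → ℕ) (β : Fin m → ℕ) : ℝ := irate fun n => G (n • β)

/-- the growth rate of the disjoint union -/
noncomputable def U {κ : Type} [Fintype κ] (G : (Fin m → ℕ) → ℕ) (α : κ → Fin m → ℕ) : ℝ :=
  irate fun n => ∑ f : Fin n → κ, G (∑ t, α (f t))

/-- the monomial -/
noncomputable def mon (x : Fin m → ℝ) (β : Fin m → ℕ) : ℝ := ∏ i, x i ^ β i

/-- the body -/
def K (R : (Fin m → ℕ) → ℝ) : Set (Fin m → ℝ) :=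
  {x | (∀ i, 0 ≤ x i) ∧ ∀ β, mon x β ≤ R β}

theorem mon_add (x : Fin m → ℝ) (β γ : Fin m → ℕ) : mon x (β + γ) = mon x β * mon x γ := by
  unfold mon
  rw [← Finset.prod_mul_distrib]
  exact Finset.prod_congr rfl fun i _ => by rw [Pi.add_apply, pow_add]

theorem mon_zero (x : Fin m → ℝ) : mon x 0 = 1 := by
  unfold mon
  simp

theorem mon_nonneg {x : Fin m → ℝ} (hx : ∀ i, 0 ≤ x i) (β : Fin m → ℕ) : 0 ≤ mon x β :=
  Finset.prod_nonneg fun i _ => pow_nonneg (hx i) _

theorem mon_sum {T : Type} (s : Finset T) (x : Fin m → ℝ) (β : T → Fin m → ℕ) :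
    mon x (∑ t ∈ s, β t) = ∏ t ∈ s, mon x (β t) := by
  classical
  induction s using Finset.induction_on with
  | empty => rw [Finset.sum_empty, Finset.prod_empty, mon_zero]
  | insert a s ha ih => rw [Finset.sum_insert ha, Finset.prod_insert ha, mon_add, ih]

theorem mon_nsmul (x : Fin m → ℝ) (n : ℕ) (β : Fin m → ℕ) : mon x (n • β) = mon x β ^ n := by
  unfold mon
  rw [← Finset.prod_pow]
  refine Finset.prod_congr rfl fun i _ => ?_
  rw [Pi.smul_apply, smul_eq_mul, mul_comm, pow_mul]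

variable {G : (Fin m → ℕ) → ℕ} (hG : Sub G)

include hG

theorem Sub.one_le (β : Fin m → ℕ) : 1 ≤ G β := by
  have := hG.mono 0 β
  rw [hG.zero, zero_add] at this
  exact this

theorem Sub.sum_le {T : Type} (s : Finset T) (β : T → Fin m → ℕ) :
    G (∑ t ∈ s, β t) ≤ ∏ t ∈ s, G (β t) := by
  classical
  induction s using Finset.induction_on with
  | empty => rw [Finset.sum_empty, Finset.prod_empty, hG.zero]
  | insert a s ha ih =>
    rw [Finset.sum_insert ha, Finset.prod_insert ha]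
    exact (hG.add _ _).trans (Nat.mul_le_mul_left _ ih)

theorem Sub.growth (β : Fin m → ℕ) (η : ℝ) (hη : 0 < η) :
    ∃ C : ℝ, 0 ≤ C ∧ ∀ n : ℕ, (G (n • β) : ℝ) ≤ C * (R G β + η) ^ n :=
  growth_submul (fun n => G (n • β)) (fun n => hG.one_le _)
    (fun a b => by rw [add_smul]; exact hG.add _ _) η hη

theorem Sub.one_le_R (β : Fin m → ℕ) : 1 ≤ R G β :=
  le_irate _ 1 zero_le_one fun n => by
    rw [one_pow]
    exact_mod_cast hG.one_le _

theorem Sub.R_pow_le (β : Fin m → ℕ) (n : ℕ) : R G β ^ n ≤ G (n • β) := by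
  cases n with
  | zero =>
    rw [pow_zero, zero_smul, hG.zero]
    exact_mod_cast le_rfl
  | succ n => exact irate_pow_le (fun n => G (n • β)) n

theorem Sub.R_le_of_growth (β : Fin m → ℕ) (C x : ℝ) (hC : 0 ≤ C) (hx : 0 < x)
    (h : ∀ n : ℕ, (G (n • β) : ℝ) ≤ C * x ^ n) : R G β ≤ x :=
  irate_le_of_growth _ C x hC hx h

theorem Sub.R_nsmul (β : Fin m → ℕ) (n : ℕ) : R G (n • β) = R G β ^ n := by
  have h1 := hG.one_le_R β
  apply le_antisymm
  · have hη : ∀ η : ℝ, 0 < η → R G (n • β) ≤ (R G β + η) ^ n := by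
      intro η hη
      obtain ⟨C, hC, h⟩ := hG.growth β η hη
      refine hG.R_le_of_growth _ C _ hC (by positivity) fun j => ?_
      rw [smul_smul, ← pow_mul, mul_comm n j]
      exact h _
    have hc : Tendsto (fun η : ℝ => (R G β + η) ^ n) (𝓝[>] 0) (𝓝 ((R G β + 0) ^ n)) := by
      have h3 : Continuous fun η : ℝ => (R G β + η) ^ n := by fun_prop
      exact (h3.tendsto 0).mono_left nhdsWithin_le_nhds
    rw [add_zero] at hc
    exact ge_of_tendsto hc (eventually_nhdsWithin_of_forall fun η h => hη η h)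
  · refine le_irate _ _ (by positivity) fun j => ?_
    rw [← pow_mul, smul_smul, mul_comm n]
    exact hG.R_pow_le β _

theorem Sub.R_zero : R G 0 = 1 := by
  have := hG.R_nsmul 0 0
  rw [smul_zero, pow_zero] at this
  exact this

theorem Sub.R_add (β γ : Fin m → ℕ) : R G (β + γ) ≤ R G β * R G γ := by
  have h1 := hG.one_le_R β
  have h2 := hG.one_le_R γ
  have hη : ∀ η : ℝ, 0 < η → R G (β + γ) ≤ (R G β + η) * (R G γ + η) := by
    intro η hη
    obtain ⟨C, hC, h⟩ := hG.growth β η hη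
    obtain ⟨C', hC', h'⟩ := hG.growth γ η hη
    refine hG.R_le_of_growth _ (C * C') _ (by positivity) (by positivity) fun j => ?_
    rw [smul_add, mul_pow]
    calc (G (j • β + j • γ) : ℝ) ≤ G (j • β) * G (j • γ) := by exact_mod_cast hG.add _ _
      _ ≤ (C * (R G β + η) ^ j) * (C' * (R G γ + η) ^ j) :=
          mul_le_mul (h j) (h' j) (Nat.cast_nonneg _) (by positivity)
      _ = _ := by ring
  have hc : Tendsto (fun η : ℝ => (R G β + η) * (R G γ + η)) (𝓝[>] 0)
      (𝓝 ((R G β + 0) * (R G γ + 0))) := by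
    have h3 : Continuous fun η : ℝ => (R G β + η) * (R G γ + η) := by fun_prop
    exact (h3.tendsto 0).mono_left nhdsWithin_le_nhds
  rw [add_zero, add_zero] at hc
  exact ge_of_tendsto hc (eventually_nhdsWithin_of_forall fun η h => hη η h)

theorem Sub.R_mono (β γ : Fin m → ℕ) : R G β ≤ R G (β + γ) := by
  have h1 := hG.one_le_R β
  refine le_irate _ _ (by positivity) fun j => ?_
  refine (hG.R_pow_le β _).trans ?_
  rw [smul_add]
  exact_mod_cast hG.mono _ _

theorem Sub.R_mono' {β γ : Fin m → ℕ} (h : β ≤ γ) : R G β ≤ R G γ := by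
  have h1 : γ = β + (γ - β) := (add_tsub_cancel_of_le h).symm
  rw [h1]
  exact hG.R_mono _ _

end Pool.Agent.H67.AS
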