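import Pool.Agent.H67.AS.Union
import Mathlib.Analysis.MeanInequalities

/-!
# The body, its maxima, and a Schönhage type inequality
-/

set_option autoImplicit false
set_option linter.unusedSectionVars false

namespace Pool.Agent.H67.AS

open scoped Topology
open Pool.Agent.TH671.DU
open Filter

section general

variable {m : ℕ} (Q : (Fin m → ℕ) → ℝ)

theorem mon_single (x : Fin m → ℝ) (i : Fin m) : mon x (Pi.single i 1) = x i := by
  unfold mon
  rw [Finset.prod_eq_single i]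
  · rw [Pi.single_eq_same, pow_one]
  · intro j _ hj
    rw [Pi.single_eq_of_ne hj, pow_zero]
  · intro h
    exact absurd (Finset.mem_univ _) h

theorem continuous_mon (β : Fin m → ℕ) : Continuous fun x : Fin m → ℝ => mon x β := by
  unfold mon
  fun_prop

theorem isCompact_K : IsCompact (K Q) := by
  have h1 : IsClosed (K Q) := by
    have : K Q = (⋂ i, {x : Fin m → ℝ | 0 ≤ x i}) ∩ ⋂ β, {x : Fin m → ℝ | mon x β ≤ Q β} := by
      ext x
      simp [K]
    rw [this]
    refine IsClosed.inter (isClosed_iInter fun i => ?_) (isClosed_iInter fun β => ?_)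
    · exact isClosed_le continuous_const (continuous_apply i)
    · exact isClosed_le (continuous_mon β) continuous_const
  refine (isCompact_univ_pi fun i : Fin m =>
    (isCompact_Icc : IsCompact (Set.Icc (0 : ℝ) (Q (Pi.single i 1))))).of_isClosed_subset h1 ?_
  intro x hx i _
  refine ⟨hx.1 i, ?_⟩
  have := hx.2 (Pi.single i 1)
  rwa [mon_single] at this

theorem mon_mono {x y : Fin m → ℝ} (hy : ∀ i, 0 ≤ y i) (h : ∀ i, y i ≤ x i) (β : Fin m → ℕ) :
    mon y β ≤ mon x β :=
  Finset.prod_le_prod (fun i _ => pow_nonneg (hy i) _) fun i _ => pow_le_pow_left₀ (hy i) (h i) _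

theorem K_down {x y : Fin m → ℝ} (hx : x ∈ K Q) (hy : ∀ i, 0 ≤ y i) (h : ∀ i, y i ≤ x i) :
    y ∈ K Q := ⟨hy, fun β => (mon_mono hy h β).trans (hx.2 β)⟩

theorem K_log {x y : Fin m → ℝ} (hx : x ∈ K Q) (hy : y ∈ K Q) {s : ℝ} (hs0 : 0 ≤ s)
    (hs1 : s ≤ 1) : (fun i => x i ^ s * y i ^ (1 - s)) ∈ K Q := by
  refine ⟨fun i => mul_nonneg (Real.rpow_nonneg (hx.1 i) _) (Real.rpow_nonneg (hy.1 i) _),
    fun β => ?_⟩
  have h1 : mon (fun i => x i ^ s * y i ^ (1 - s)) β = mon x β ^ s * mon y β ^ (1 - s) := by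
    unfold mon
    rw [← Real.finsetProd_rpow _ _ fun i _ => pow_nonneg (hx.1 i) _,
      ← Real.finsetProd_rpow _ _ fun i _ => pow_nonneg (hy.1 i) _, ← Finset.prod_mul_distrib]
    refine Finset.prod_congr rfl fun i _ => ?_
    rw [mul_pow, ← Real.rpow_natCast, ← Real.rpow_natCast, ← Real.rpow_natCast,
      ← Real.rpow_natCast, ← Real.rpow_mul (hx.1 i), ← Real.rpow_mul (hy.1 i),
      ← Real.rpow_mul (hx.1 i), ← Real.rpow_mul (hy.1 i), mul_comm s, mul_comm (1 - s)]
  have hQ : 0 ≤ Q β := (mon_nonneg hx.1 β).trans (hx.2 β)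
  rw [h1]
  calc mon x β ^ s * mon y β ^ (1 - s) ≤ Q β ^ s * Q β ^ (1 - s) :=
        mul_le_mul (Real.rpow_le_rpow (mon_nonneg hx.1 β) (hx.2 β) hs0)
          (Real.rpow_le_rpow (mon_nonneg hy.1 β) (hy.2 β) (by linarith))
          (Real.rpow_nonneg (mon_nonneg hy.1 β) _) (Real.rpow_nonneg hQ _)
    _ = Q β := by
        rw [← Real.rpow_add' hQ (by norm_num)]
        norm_num

/-- weighted inequality between the means, with natural weights -/
theorem amgm {κ : Type} [Fintype κ] (n : κ → ℕ) (z : κ → ℝ) (hz : ∀ j, 0 ≤ z j) :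
    ((∑ j, n j : ℕ) : ℝ) ^ (∑ j, n j) * ∏ j, z j ^ n j ≤
      (∏ j, (n j : ℝ) ^ n j) * (∑ j, z j) ^ (∑ j, n j) := by
  classical
  set N := ∑ j, n j with hN
  rcases Nat.eq_zero_or_pos N with h0 | h0
  · have hj : ∀ j, n j = 0 := by
      intro j
      have := Finset.single_le_sum (f := n) (fun i _ => Nat.zero_le _) (Finset.mem_univ j)
      omega
    simp [h0, hj]
  have hN0 : (0 : ℝ) < N := by exact_mod_cast h0
  -- restrict to the indices with positive weight
  have h1 := Real.geom_mean_le_arith_mean Finset.univ (fun j => (n j : ℝ))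
    (fun j => if n j = 0 then 1 else z j / n j) (fun j _ => Nat.cast_nonneg _)
    (by
      rw [← Nat.cast_sum]
      exact hN0)
    (fun j _ => by
      split_ifs
      · exact zero_le_one
      · exact div_nonneg (hz j) (Nat.cast_nonneg _))
  rw [← Nat.cast_sum, ← hN] at h1
  have h2 : ∑ j, (n j : ℝ) * (if n j = 0 then 1 else z j / n j) ≤ ∑ j, z j := by
    refine Finset.sum_le_sum fun j _ => ?_
    split_ifs with h
    · rw [h]
      simp [hz j]
    · have : (n j : ℝ) ≠ 0 := by exact_mod_cast h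
      rw [mul_div_cancel₀ _ this]
  have h3 : ∏ j, (if n j = 0 then 1 else z j / n j) ^ ((n j : ℕ) : ℝ) =
      ∏ j, z j ^ n j / (n j : ℝ) ^ n j := by
    refine Finset.prod_congr rfl fun j _ => ?_
    rw [Real.rpow_natCast]
    split_ifs with h
    · simp [h]
    · rw [div_pow]
  rw [h3] at h1
  have h4 : (0 : ℝ) ≤ ∏ j, z j ^ n j / (n j : ℝ) ^ n j :=
    Finset.prod_nonneg fun j _ => div_nonneg (pow_nonneg (hz j) _) (by positivity)
  have h5 : ∏ j, z j ^ n j / (n j : ℝ) ^ n j ≤ ((∑ j, z j) / N) ^ N := by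
    have h6 := pow_le_pow_left₀ (Real.rpow_nonneg h4 _)
      (h1.trans (div_le_div_of_nonneg_right h2 hN0.le)) N
    rw [← Real.rpow_natCast, ← Real.rpow_mul h4, inv_mul_cancel₀ hN0.ne', Real.rpow_one] at h6
    exact h6
  rw [Finset.prod_div_distrib, div_pow, div_le_div_iff₀ ?_ (by positivity)] at h5
  · linarith
  · refine Finset.prod_pos fun j _ => ?_
    rcases Nat.eq_zero_or_pos (n j) with h | h
    · simp [h]
    · positivity

end general

variable {m : ℕ} {G : (Fin m → ℕ) → ℕ} (hG : Sub G)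
variable {κ : Type} [Fintype κ] (α : κ → Fin m → ℕ)

include hG

theorem Sub.K_nonempty : (K (R G)).Nonempty := by
  obtain ⟨x, hx, -⟩ := hG.exists_mem_K 0
  exact ⟨x, hx⟩

theorem Sub.isGreatest_U [Nonempty κ] : IsGreatest (pol α '' K (R G)) (U G α) := by
  obtain ⟨x, hx, hmax⟩ := (isCompact_K (R G)).exists_isMaxOn hG.K_nonempty
    (f := pol α) (by
      unfold pol
      exact (continuous_finsetSum _ fun j _ => continuous_mon (α j)).continuousOn)
  have h1 : U G α ≤ pol α x := hG.U_le α fun y hy => hmax hy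
  refine ⟨⟨x, hx, le_antisymm (hG.pol_le α hx) h1⟩, ?_⟩
  rintro _ ⟨y, hy, rfl⟩
  exact hG.pol_le α hy

theorem Sub.isGreatest_R (β : Fin m → ℕ) :
    IsGreatest ((fun x => mon x β) '' K (R G)) (R G β) := by
  obtain ⟨x, hx, -, h⟩ := hG.exists_mem_K β
  refine ⟨⟨x, hx, h⟩, ?_⟩
  rintro _ ⟨y, hy, rfl⟩
  exact hy.2 β

/-- **A Schönhage type inequality.** -/
theorem Sub.schoenhage (n : κ → ℕ) :
    ((∑ j, n j : ℕ) : ℝ) ^ (∑ j, n j) * R G (∑ j, n j • α j) ≤
      (∏ j, (n j : ℝ) ^ n j) * U G α ^ (∑ j, n j) := by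
  obtain ⟨x, hx, -, h⟩ := hG.exists_mem_K (∑ j, n j • α j)
  rw [← h, mon_sum]
  have h1 := amgm n (fun j => mon x (α j)) fun j => mon_nonneg hx.1 _
  simp only [mon_nsmul]
  refine h1.trans (mul_le_mul_of_nonneg_left ?_ (Finset.prod_nonneg fun j _ => by positivity))
  exact pow_le_pow_left₀ (Finset.sum_nonneg fun j _ => mon_nonneg hx.1 _) (hG.pol_le α hx) _

end Pool.Agent.H67.AS
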