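import Pool.Agent.H67.AS.Prod
import Pool.Agent.H67.AS.Body

/-!
# The least degrees for products and unions
-/

set_option autoImplicit false
set_option linter.unusedSectionVars false

namespace Pool.Agent.H67.AS

open scoped TensorProduct PowerSeries Topology
open Pool.Agent.H826R3.SM Pool.Agent.TH671.DU
open Filter

variable {k : Type} [Field k] [IsAlgClosed k]

theorem mdeg_piF {κ : Type} [Fintype κ] (Y : κ → Type) [∀ i, CommRing (Y i)]
    [∀ i, Algebra k (Y i)] [∀ i, Module.Finite k (Y i)] :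
    mdeg k (∀ i, Y i) = ∑ i, mdeg k (Y i) := by
  let e : Fin (Fintype.card κ) ≃ κ := (Fintype.equivFin κ).symm
  have h1 : mdeg k (∀ i, Y i) = mdeg k (∀ a, Y (e a)) :=
    mdeg_congr (AlgEquiv.piCongrLeft k Y e).symm
  rw [h1, mdeg_pi', e.sum_comp (fun i => mdeg k (Y i))]

variable {m : ℕ} (A : Fin m → Type) [∀ i, CommRing (A i)] [∀ i, Algebra k (A i)]
  [∀ i, Module.Finite k (A i)]

theorem mdeg_uni_aux {κ : Type} [Fintype κ] (α : κ → Fin m → ℕ) (n : ℕ) : ∀ β : Fin m → ℕ,
    mdeg k (Pow k (Uni k A α) n ⊗[k] Prd k A β) =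
      ∑ f : Fin n → κ, mdeg k (Prd k A (β + ∑ t, α (f t))) := by
  classical
  induction n with
  | zero =>
    intro β
    rw [Fintype.sum_unique, Finset.univ_eq_empty, Finset.sum_empty, add_zero]
    exact mdeg_congr ((Algebra.TensorProduct.congr (powZero k _) AlgEquiv.refl).trans
      (Algebra.TensorProduct.lid k _))
  | succ n ih =>
    intro β
    have h1 : mdeg k (Pow k (Uni k A α) (n + 1) ⊗[k] Prd k A β) =
        mdeg k (∀ i : κ, Pow k (Uni k A α) n ⊗[k] Prd k A (β + α i)) := by
      refine mdeg_congr ?_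
      refine (Algebra.TensorProduct.congr (powSucc k (Uni k A α) n) AlgEquiv.refl).trans ?_
      refine (Algebra.TensorProduct.assoc k k k (Uni k A α) (Pow k (Uni k A α) n)
        (Prd k A β)).trans ?_
      refine (Algebra.TensorProduct.comm k (Uni k A α)
        (Pow k (Uni k A α) n ⊗[k] Prd k A β)).trans ?_
      refine (Algebra.TensorProduct.piRight k k (Pow k (Uni k A α) n ⊗[k] Prd k A β)
        (fun i => Prd k A (α i))).trans ?_
      refine AlgEquiv.piCongrRight fun i => ?_
      exact (Algebra.TensorProduct.assoc k k k (Pow k (Uni k A α) n) (Prd k A β)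
        (Prd k A (α i))).trans (Algebra.TensorProduct.congr AlgEquiv.refl (prdAdd k A β (α i)))
    rw [h1, mdeg_piF]
    rw [← (Fin.consEquiv fun _ : Fin (n + 1) => κ).sum_comp, Fintype.sum_prod_type]
    refine Finset.sum_congr rfl fun i _ => ?_
    rw [ih (β + α i)]
    refine Finset.sum_congr rfl fun f _ => ?_
    have h2 : β + α i + ∑ j, α (f j) = β + ∑ j, α ((Fin.consEquiv fun _ : Fin (n + 1) => κ)
        (i, f) j) := by
      rw [Fin.sum_univ_succ, add_assoc]
      rfl
    rw [h2]

theorem mdeg_uni {κ : Type} [Fintype κ] (α : κ → Fin m → ℕ) (n : ℕ) :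
    mdeg k (Pow k (Uni k A α) n) = ∑ f : Fin n → κ, mdeg k (Prd k A (∑ t, α (f t))) := by
  let g : (Fin m → ℕ) → ℕ := fun b => mdeg k (Prd k A b)
  have h1 : mdeg k (Pow k (Uni k A α) n ⊗[k] Prd k A 0) =
    ∑ f : Fin n → κ, g (0 + ∑ t, α (f t)) := mdeg_uni_aux (k := k) A α n 0
  simp only [zero_add] at h1
  refine Eq.trans ?_ h1
  exact mdeg_congr ((Algebra.TensorProduct.rid k k _).symm.trans
    (Algebra.TensorProduct.congr AlgEquiv.refl (prdZero k A).symm))

theorem mdeg_prd_pow (β : Fin m → ℕ) (n : ℕ) : ∀ γ : Fin m → ℕ,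
    mdeg k (Pow k (Prd k A β) n ⊗[k] Prd k A γ) = mdeg k (Prd k A (γ + n • β)) := by
  induction n with
  | zero =>
    intro γ
    rw [zero_smul, add_zero]
    exact mdeg_congr ((Algebra.TensorProduct.congr (powZero k _) AlgEquiv.refl).trans
      (Algebra.TensorProduct.lid k _))
  | succ n ih =>
    intro γ
    have h1 : mdeg k (Pow k (Prd k A β) (n + 1) ⊗[k] Prd k A γ) =
        mdeg k (Pow k (Prd k A β) n ⊗[k] Prd k A (γ + β)) := by
      refine mdeg_congr ?_
      refine (Algebra.TensorProduct.congr (powSucc k (Prd k A β) n) AlgEquiv.refl).trans ?_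
      refine (Algebra.TensorProduct.assoc k k k (Prd k A β) (Pow k (Prd k A β) n)
        (Prd k A γ)).trans ?_
      refine (Algebra.TensorProduct.comm k (Prd k A β)
        (Pow k (Prd k A β) n ⊗[k] Prd k A γ)).trans ?_
      exact (Algebra.TensorProduct.assoc k k k (Pow k (Prd k A β) n) (Prd k A γ)
        (Prd k A β)).trans (Algebra.TensorProduct.congr AlgEquiv.refl (prdAdd k A γ β))
    rw [h1, ih]
    have h2 : γ + β + n • β = γ + (n + 1) • β := by
      rw [succ_nsmul, add_assoc, add_comm β]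
    rw [h2]

theorem mdeg_prd_pow' (β : Fin m → ℕ) (n : ℕ) :
    mdeg k (Pow k (Prd k A β) n) = mdeg k (Prd k A (n • β)) := by
  let g : (Fin m → ℕ) → ℕ := fun b => mdeg k (Prd k A b)
  have h1 : mdeg k (Pow k (Prd k A β) n ⊗[k] Prd k A 0) = g (0 + n • β) :=
    mdeg_prd_pow (k := k) A β n 0
  rw [zero_add] at h1
  refine Eq.trans ?_ h1
  exact mdeg_congr ((Algebra.TensorProduct.rid k k _).symm.trans
    (Algebra.TensorProduct.congr AlgEquiv.refl (prdZero k A).symm))

theorem fam_field (k : Type) [Field k] [IsAlgClosed k] : mdeg k k = 1 := by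
  have h1 := fadd k k
  have h2 : mdeg k k ≤ 1 := mdeg_le fam_self
  rw [Module.finrank_self] at h1
  omega

/-- a finite nontrivial algebra has a point -/
theorem exists_point (B : Type) [CommRing B] [Algebra k B] [Module.Finite k B] [Nontrivial B] :
    Nonempty (B →ₐ[k] k) := by
  obtain ⟨M, hM⟩ := Ideal.exists_maximal B
  let _ : Field (B ⧸ M) := Ideal.Quotient.field M
  have hbij : Function.Bijective (algebraMap k (B ⧸ M)) :=
    IsAlgClosed.algebraMap_bijective_of_isIntegral
  let ee : k ≃ₐ[k] (B ⧸ M) := AlgEquiv.ofBijective (Algebra.ofId k (B ⧸ M)) hbij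
  exact ⟨ee.symm.toAlgHom.comp (Ideal.Quotient.mkₐ k M)⟩

variable [∀ i, Nontrivial (A i)]

theorem sub_mdeg : Sub fun β : Fin m → ℕ => mdeg k (Prd k A β) where
  zero := by rw [mdeg_congr (prdZero k A), fam_field]
  add := by
    intro β γ
    obtain ⟨D, hD⟩ := exists_fam (k := k) (Prd k A β)
    obtain ⟨E, hE⟩ := exists_fam (k := k) (Prd k A γ)
    refine mdeg_le (Fam.join (mdeg_spec hD) (mdeg_spec hE)
      (pl A fun i a => ps k A (β + γ) i (Fin.castAdd (γ i) a))
      (pl A fun i a => ps k A (β + γ) i (Fin.natAdd (β i) a)) ?_)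
    refine p_eq_top A _ fun i c x => ?_
    refine Fin.addCases (motive := fun c => ps k A (β + γ) i c x ∈ _) (fun a => ?_)
      (fun a => ?_) c
    · exact (le_sup_left :
        (pl A fun i a => ps k A (β + γ) i (Fin.castAdd (γ i) a)).range ≤ _)
        ⟨ps k A β i a x, pl_ps A _ i a x⟩
    · exact (le_sup_right :
        (pl A fun i a => ps k A (β + γ) i (Fin.natAdd (β i) a)).range ≤ _)
        ⟨ps k A γ i a x, pl_ps A _ i a x⟩
  mono := by
    intro β γ
    have pt : ∀ i, A i →ₐ[k] k := fun i => (exists_point (k := k) (A i)).some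
    obtain ⟨E, hE⟩ := exists_fam (k := k) (Prd k A (β + γ))
    refine mdeg_le ((mdeg_spec hE).of_surjective
      ((Algebra.TensorProduct.productMap (AlgHom.id k (Prd k A β))
        ((Algebra.ofId k (Prd k A β)).comp (pl A fun i _ => pt i))).comp
          (prdAdd k A β γ).symm.toAlgHom) ?_)
    rw [AlgHom.coe_comp]
    refine Function.Surjective.comp ?_ (prdAdd k A β γ).symm.surjective
    intro x
    refine ⟨x ⊗ₜ 1, ?_⟩
    rw [Algebra.TensorProduct.productMap_apply_tmul, map_one, mul_one]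
    rfl

theorem rate_prd (β : Fin m → ℕ) :
    rate k (Prd k A β) = R (fun β : Fin m → ℕ => mdeg k (Prd k A β)) β := by
  rw [rate_eq]
  unfold R
  congr 1
  funext n
  exact mdeg_prd_pow' A β n

theorem rate_uni {κ : Type} [Fintype κ] (α : κ → Fin m → ℕ) :
    rate k (Uni k A α) = U (fun β : Fin m → ℕ => mdeg k (Prd k A β)) α := by
  rw [rate_eq]
  unfold U
  congr 1
  funext n
  exact mdeg_uni A α n

/-- the degrees -/
noncomputable def dg (k : Type) [Field k] {m : ℕ} (A : Fin m → Type) [∀ i, CommRing (A i)]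
    [∀ i, Algebra k (A i)] (i : Fin m) : ℕ := Module.finrank k (A i)

theorem finrank_prd_cast (β : Fin m → ℕ) :
    (Module.finrank k (Prd k A β) : ℝ) = mon (fun i => (Module.finrank k (A i) : ℝ)) β := by
  rw [finrank_prd]
  unfold mon
  push_cast
  rfl

theorem finrank_uni_cast {κ : Type} [Fintype κ] (α : κ → Fin m → ℕ) :
    (Module.finrank k (Uni k A α) : ℝ) =
      pol α (fun i => (Module.finrank k (A i) : ℝ)) := by
  rw [Module.finrank_pi_fintype]
  unfold pol
  push_cast
  exact Finset.sum_congr rfl fun j _ => finrank_prd_cast A (α j)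

theorem nontrivial_prd (β : Fin m → ℕ) : Nontrivial (Prd k A β) :=
  Module.nontrivial_of_finrank_pos (R := k) (by
    rw [finrank_prd]
    exact Finset.prod_pos fun i _ => pow_pos Module.finrank_pos _)

theorem nontrivial_uni {κ : Type} [Fintype κ] [Nonempty κ] (α : κ → Fin m → ℕ) :
    Nontrivial (Uni k A α) := by
  obtain ⟨j⟩ : Nonempty κ := inferInstance
  have : ∀ j, Nontrivial (Prd k A (α j)) := fun j => nontrivial_prd A (α j)
  exact Pi.nontrivial_at j

theorem deg_mem : (fun i => (Module.finrank k (A i) : ℝ)) ∈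
    K (R fun β : Fin m → ℕ => mdeg k (Prd k A β)) := by
  refine ⟨fun i => Nat.cast_nonneg _, fun β => ?_⟩
  have := nontrivial_prd (k := k) A β
  rw [← finrank_prd_cast, ← rate_prd]
  exact finrank_le_rate _

end Pool.Agent.H67.AS
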