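import Pool.Agent.H67.AS.Abs
import Mathlib.Analysis.Convex.Cone.Extension

/-!
# The growth rates of the products are attained on a log-convex body
-/

set_option autoImplicit false
set_option linter.unusedSectionVars false

namespace Pool.Agent.H67.AS

open scoped Topology
open Pool.Agent.TH671.DU
open Filter

variable {m : ℕ} {G : (Fin m → ℕ) → ℕ} (hG : Sub G)

/-- rounding up -/
noncomputable def cl (v : Fin m → ℝ) : Fin m → ℕ := fun i => ⌈v i⌉₊

/-- `log R` of the rounded vector -/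
noncomputable def ph (G : (Fin m → ℕ) → ℕ) (v : Fin m → ℝ) : ℝ := Real.log (R G (cl v))

/-- the gauge -/
noncomputable def NN (G : (Fin m → ℕ) → ℕ) (v : Fin m → ℝ) : ℝ :=
  ⨅ T : {T : ℝ // 0 < T}, ph G (T.1 • v) / T.1

include hG

theorem Sub.ph_nonneg (v : Fin m → ℝ) : 0 ≤ ph G v := Real.log_nonneg (hG.one_le_R _)

theorem Sub.ph_mono {v w : Fin m → ℝ} (h : cl v ≤ cl w) : ph G v ≤ ph G w :=
  Real.log_le_log (lt_of_lt_of_le one_pos (hG.one_le_R _)) (hG.R_mono' h)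

theorem Sub.ph_of_add {u v w : Fin m → ℝ} (h : cl u ≤ cl v + cl w) :
    ph G u ≤ ph G v + ph G w := by
  have h1 : 0 < R G (cl v) := lt_of_lt_of_le one_pos (hG.one_le_R _)
  have h2 : 0 < R G (cl w) := lt_of_lt_of_le one_pos (hG.one_le_R _)
  unfold ph
  rw [← Real.log_mul h1.ne' h2.ne']
  exact Real.log_le_log (lt_of_lt_of_le one_pos (hG.one_le_R _))
    ((hG.R_mono' h).trans (hG.R_add _ _))

theorem Sub.ph_add (v w : Fin m → ℝ) : ph G (v + w) ≤ ph G v + ph G w :=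
  hG.ph_of_add fun _ => Nat.ceil_add_le _ _

theorem Sub.ph_nsmul (n : ℕ) (v : Fin m → ℝ) : ph G ((n : ℝ) • v) ≤ n * ph G v := by
  have h1 : cl ((n : ℝ) • v) ≤ n • cl v := by
    intro i
    change ⌈(n : ℝ) * v i⌉₊ ≤ n * ⌈v i⌉₊
    rw [Nat.ceil_le]
    push_cast
    exact mul_le_mul_of_nonneg_left (Nat.le_ceil _) (Nat.cast_nonneg _)
  unfold ph
  rw [← Real.log_pow, ← hG.R_nsmul]
  exact Real.log_le_log (lt_of_lt_of_le one_pos (hG.one_le_R _)) (hG.R_mono' h1)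

omit hG in
theorem cl_smul_mono {S T : ℝ} (hS : 0 ≤ S) (hST : S ≤ T) (v : Fin m → ℝ) :
    cl (S • v) ≤ cl (T • v) := by
  intro i
  change ⌈S * v i⌉₊ ≤ ⌈T * v i⌉₊
  by_cases h : 0 ≤ v i
  · exact Nat.ceil_mono (mul_le_mul_of_nonneg_right hST h)
  · push Not at h
    have : S * v i ≤ 0 := mul_nonpos_of_nonneg_of_nonpos hS h.le
    rw [Nat.ceil_eq_zero.2 this]
    exact Nat.zero_le _

theorem Sub.bdd (v : Fin m → ℝ) :
    BddBelow (Set.range fun T : {T : ℝ // 0 < T} => ph G (T.1 • v) / T.1) := by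
  refine ⟨0, ?_⟩
  rintro _ ⟨T, rfl⟩
  exact div_nonneg (hG.ph_nonneg _) T.2.le

theorem Sub.NN_le (v : Fin m → ℝ) {T : ℝ} (hT : 0 < T) : NN G v ≤ ph G (T • v) / T :=
  ciInf_le (hG.bdd v) ⟨T, hT⟩

theorem Sub.le_NN (v : Fin m → ℝ) {c : ℝ} (h : ∀ T : ℝ, 0 < T → c ≤ ph G (T • v) / T) :
    c ≤ NN G v := by
  have : Nonempty {T : ℝ // 0 < T} := ⟨⟨1, one_pos⟩⟩
  exact le_ciInf fun T => h T.1 T.2

theorem Sub.NN_approx (v : Fin m → ℝ) {ε : ℝ} (hε : 0 < ε) :
    ∃ U₀ : ℝ, 0 < U₀ ∧ ∀ V, U₀ ≤ V → ph G (V • v) / V ≤ NN G v + ε := by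
  have : Nonempty {T : ℝ // 0 < T} := ⟨⟨1, one_pos⟩⟩
  obtain ⟨⟨T, hT⟩, h⟩ := exists_lt_of_ciInf_lt
    (show (⨅ T : {T : ℝ // 0 < T}, ph G (T.1 • v) / T.1) < NN G v + ε / 2 by
      change NN G v < _
      linarith)
  simp only at h
  have hp := hG.ph_nonneg (T • v)
  refine ⟨2 * ph G (T • v) / ε + 1, by positivity, fun V hV => ?_⟩
  have hV0 : 0 < V := lt_of_lt_of_le (by positivity) hV
  have h1 : V ≤ (⌈V / T⌉₊ : ℝ) * T := by
    have := Nat.le_ceil (V / T)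
    rwa [div_le_iff₀ hT] at this
  have h2 : ph G (V • v) ≤ ph G ((⌈V / T⌉₊ : ℝ) • T • v) := by
    refine hG.ph_mono ?_
    rw [smul_smul]
    exact cl_smul_mono hV0.le h1 v
  have h3 := hG.ph_nsmul ⌈V / T⌉₊ (T • v)
  have h4 : (⌈V / T⌉₊ : ℝ) < V / T + 1 := Nat.ceil_lt_add_one (by positivity)
  have h5 : ph G (V • v) ≤ (V / T + 1) * ph G (T • v) :=
    (h2.trans h3).trans (mul_le_mul_of_nonneg_right h4.le hp)
  have h6 : ph G (V • v) / V ≤ ph G (T • v) / T + ph G (T • v) / V := by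
    rw [div_le_iff₀ hV0]
    refine h5.trans (le_of_eq ?_)
    field_simp
  have h7 : ph G (T • v) / V ≤ ε / 2 := by
    rw [div_le_iff₀ hV0]
    have h8 : 2 * ph G (T • v) / ε ≤ V := by linarith
    rw [div_le_iff₀ hε] at h8
    linarith
  linarith

theorem Sub.NN_add (v w : Fin m → ℝ) : NN G (v + w) ≤ NN G v + NN G w := by
  refine le_of_forall_pos_le_add fun ε hε => ?_
  obtain ⟨V, hV, h⟩ := hG.NN_approx v (half_pos hε)
  obtain ⟨W, hW, h'⟩ := hG.NN_approx w (half_pos hε)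
  have hM : 0 < max V W := lt_of_lt_of_le hV (le_max_left _ _)
  have h1 := h _ (le_max_left V W)
  have h2 := h' _ (le_max_right V W)
  refine (hG.NN_le (v + w) hM).trans ?_
  rw [smul_add]
  refine (div_le_div_of_nonneg_right (hG.ph_add _ _) hM.le).trans ?_
  rw [add_div]
  linarith

theorem Sub.NN_smul_ge {c : ℝ} (hc : 0 < c) (v : Fin m → ℝ) : c * NN G v ≤ NN G (c • v) := by
  refine hG.le_NN _ fun T hT => ?_
  have h1 := hG.NN_le v (mul_pos hT hc)
  rw [smul_smul]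
  rw [le_div_iff₀ hT]
  rw [le_div_iff₀ (mul_pos hT hc)] at h1
  linarith

theorem Sub.NN_smul {c : ℝ} (hc : 0 < c) (v : Fin m → ℝ) : NN G (c • v) = c * NN G v := by
  refine le_antisymm ?_ (hG.NN_smul_ge hc v)
  have h1 := hG.NN_smul_ge (inv_pos.2 hc) (c • v)
  rw [smul_smul, inv_mul_cancel₀ hc.ne', one_smul, inv_mul_le_iff₀ hc] at h1
  exact h1

/-- an exponent as a real vector -/
noncomputable def toR (β : Fin m → ℕ) : Fin m → ℝ := fun i => (β i : ℝ)

omit hG in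
theorem cl_toR (β : Fin m → ℕ) : cl (toR β) = β := by
  funext i
  exact Nat.ceil_natCast _

omit hG in
theorem cl_natCast_smul (n : ℕ) (β : Fin m → ℕ) : cl ((n : ℝ) • toR β) = n • β := by
  funext i
  change ⌈(n : ℝ) * (β i : ℝ)⌉₊ = n * β i
  rw [← Nat.cast_mul]
  exact Nat.ceil_natCast _

theorem Sub.NN_toR (β : Fin m → ℕ) : NN G (toR β) = Real.log (R G β) := by
  have hL : 0 ≤ Real.log (R G β) := Real.log_nonneg (hG.one_le_R β)
  apply le_antisymm
  · have h1 := hG.NN_le (toR β) one_pos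
    rw [one_smul, div_one, ph, cl_toR] at h1
    exact h1
  · refine hG.le_NN _ fun T hT => ?_
    rw [le_div_iff₀ hT]
    by_contra hcon
    push Not at hcon
    set L := Real.log (R G β) with hLdef
    have hgap : 0 < L * T - ph G (T • toR β) := by linarith
    obtain ⟨n, hn⟩ := exists_nat_gt (L / (L * T - ph G (T • toR β)))
    rw [div_lt_iff₀ hgap] at hn
    have h1 := hG.ph_nsmul n (T • toR β)
    rw [smul_smul] at h1
    have h2 : (⌊(n : ℝ) * T⌋₊ : ℝ) ≤ n * T := Nat.floor_le (by positivity)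
    have h3 : ph G ((⌊(n : ℝ) * T⌋₊ : ℝ) • toR β) ≤ ph G (((n : ℝ) * T) • toR β) :=
      hG.ph_mono (cl_smul_mono (Nat.cast_nonneg _) h2 _)
    have h4 : ph G ((⌊(n : ℝ) * T⌋₊ : ℝ) • toR β) = ⌊(n : ℝ) * T⌋₊ * L := by
      unfold ph
      rw [cl_natCast_smul, hG.R_nsmul, Real.log_pow]
    have h5 : (n : ℝ) * T - 1 < ⌊(n : ℝ) * T⌋₊ := Nat.sub_one_lt_floor _
    have h6 : ((n : ℝ) * T - 1) * L ≤ ⌊(n : ℝ) * T⌋₊ * L :=
      mul_le_mul_of_nonneg_right h5.le hL
    nlinarith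

theorem Sub.NN_neg_single (i : Fin m) : NN G (-(Pi.single i 1)) ≤ 0 := by
  have h1 := hG.NN_le (-(Pi.single i 1)) one_pos
  refine h1.trans (le_of_eq ?_)
  rw [one_smul, div_one, ph]
  have h2 : cl (-(Pi.single i 1) : Fin m → ℝ) = 0 := by
    funext j
    change ⌈(-(Pi.single i 1 : Fin m → ℝ) j)⌉₊ = 0
    rw [Nat.ceil_eq_zero]
    by_cases h : j = i
    · subst h
      rw [Pi.single_eq_same]
      norm_num
    · rw [Pi.single_eq_of_ne h]
      norm_num
  rw [h2, hG.R_zero, Real.log_one]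

theorem Sub.NN_zero : NN G 0 = 0 := by
  have h1 := hG.NN_smul two_pos (0 : Fin m → ℝ)
  rw [smul_zero] at h1
  linarith

omit hG in
theorem lin_toR (g : (Fin m → ℝ) →ₗ[ℝ] ℝ) (β : Fin m → ℕ) :
    g (toR β) = ∑ i, (β i : ℝ) * g (Pi.single i 1) := by
  have h1 : toR β = ∑ i, (β i : ℝ) • (Pi.single i 1 : Fin m → ℝ) := by
    funext j
    rw [Finset.sum_apply, Finset.sum_eq_single j]
    · simp [toR]
    · intro i _ hij
      simp [Pi.single_eq_of_ne (Ne.symm hij)]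
    · intro h
      exact absurd (Finset.mem_univ _) h
  rw [h1, map_sum]
  exact Finset.sum_congr rfl fun i _ => by rw [map_smul, smul_eq_mul]

omit hG in
theorem mon_exp (u : Fin m → ℝ) (β : Fin m → ℕ) :
    mon (fun i => Real.exp (u i)) β = Real.exp (∑ i, (β i : ℝ) * u i) := by
  unfold mon
  rw [Real.exp_sum]
  refine Finset.prod_congr rfl fun i _ => ?_
  rw [← Real.exp_nat_mul]

/-- **Attainment.** -/
theorem Sub.exists_mem_K (β : Fin m → ℕ) :
    ∃ x ∈ K (R G), (∀ i, 1 ≤ x i) ∧ mon x β = R G β := by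
  have hpos : ∀ γ, 0 < R G γ := fun γ => lt_of_lt_of_le one_pos (hG.one_le_R γ)
  let f : (Fin m → ℝ) →ₗ.[ℝ] ℝ := LinearPMap.mkSpanSingleton' (toR β) (Real.log (R G β)) (by
    intro c hc
    by_cases hβ : β = 0
    · rw [hβ, hG.R_zero, Real.log_one, smul_zero]
    · rcases smul_eq_zero.1 hc with h | h
      · rw [h, map_zero, zero_smul]
      · exfalso
        apply hβ
        rw [← cl_toR β, h]
        funext i
        change ⌈(0 : ℝ)⌉₊ = 0
        exact Nat.ceil_zero)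
  obtain ⟨g, hg1, hg2⟩ := exists_extension_of_le_sublinear f (NN G)
    (fun c hc v => hG.NN_smul hc v) hG.NN_add (by
      rintro ⟨x, hx⟩
      obtain ⟨c, rfl⟩ := Submodule.mem_span_singleton.1 hx
      have h1 : f ⟨c • toR β, hx⟩ = c • Real.log (R G β) :=
        LinearPMap.mkSpanSingleton'_apply (σ := RingHom.id ℝ) _ _ _ _ _
      rw [h1]
      change c * Real.log (R G β) ≤ NN G (c • toR β)
      rw [← hG.NN_toR β]
      rcases lt_trichotomy c 0 with hc | hc | hc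
      · have h2 := hG.NN_add (c • toR β) ((-c) • toR β)
        rw [← add_smul, add_neg_cancel, zero_smul, hG.NN_zero,
          hG.NN_smul (show 0 < -c by linarith)] at h2
        linarith
      · rw [hc, zero_smul, zero_mul, hG.NN_zero]
      · exact (hG.NN_smul hc _).ge)
  have hgβ : g (toR β) = Real.log (R G β) := by
    have h1 := hg1 ⟨toR β, Submodule.mem_span_singleton_self _⟩
    have h2 : f ⟨toR β, Submodule.mem_span_singleton_self _⟩ = Real.log (R G β) :=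
      LinearPMap.mkSpanSingleton'_apply_self (σ := RingHom.id ℝ) _ _ _ _
    rw [← h2, ← h1]
  have hgm : ∀ i, 0 ≤ g (Pi.single i 1) := by
    intro i
    have h1 := (hg2 (-(Pi.single i 1))).trans (hG.NN_neg_single i)
    rw [map_neg] at h1
    linarith
  refine ⟨fun i => Real.exp (g (Pi.single i 1)), ⟨fun i => (Real.exp_pos _).le, fun γ => ?_⟩,
    fun i => Real.one_le_exp (hgm i), ?_⟩
  · rw [mon_exp, ← lin_toR, ← Real.exp_log (hpos γ)]
    refine Real.exp_le_exp.2 ?_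
    rw [← hG.NN_toR γ]
    exact hg2 _
  · rw [mon_exp, ← lin_toR, hgβ, Real.exp_log (hpos β)]

end Pool.Agent.H67.AS
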