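import Pool.Graph.R_seed8.TH671.DU.Poly

/-!
# Products of powers of several finite schemes and their disjoint unions
-/

set_option autoImplicit false
set_option linter.unusedSectionVars false

namespace Pool.Agent.H67.AS

open scoped TensorProduct PowerSeries Topology
open Pool.Agent.H826R3.SM Pool.Agent.TH671.DU
open Filter

section lift

variable {k : Type} [Field k] {ι : Type} [Fintype ι] [DecidableEq ι] {X : ι → Type}
  [∀ i, CommRing (X i)] [∀ i, Algebra k (X i)] {Y : Type} [CommRing Y] [Algebra k Y]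

/-- the inclusion of a factor -/
noncomputable def gs (k : Type) [Field k] {ι : Type} [Fintype ι] [DecidableEq ι] (X : ι → Type)
    [∀ i, CommRing (X i)] [∀ i, Algebra k (X i)] (i : ι) : X i →ₐ[k] PiTensorProduct k X :=
  PiTensorProduct.singleAlgHom (R := k) (A := X) i

/-- the map out of a tensor product given by maps on the factors -/
noncomputable def gl (f : ∀ i, X i →ₐ[k] Y) : PiTensorProduct k X →ₐ[k] Y :=
  PiTensorProduct.liftAlgHom
    ((MultilinearMap.mkPiAlgebra k ι Y).compLinearMap fun i => (f i).toLinearMap)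
    (by simp) (by intro x y; simp [Finset.prod_mul_distrib])

theorem gl_gs (f : ∀ i, X i →ₐ[k] Y) (i : ι) (x : X i) : gl f (gs k X i x) = f i x := by
  unfold gl
  change PiTensorProduct.lift _ (PiTensorProduct.tprod k (MonoidHom.mulSingle X i x)) = _
  rw [PiTensorProduct.lift.tprod]
  simp only [MultilinearMap.compLinearMap_apply, MultilinearMap.mkPiAlgebra_apply,
    AlgHom.toLinearMap_apply, MonoidHom.mulSingle_apply]
  rw [Finset.prod_eq_single i]
  · simp
  · intro j _ hj
    rw [Pi.mulSingle_eq_of_ne hj, map_one]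
  · intro h
    exact absurd (Finset.mem_univ _) h

theorem tprod_eq_prod (x : ∀ i, X i) :
    (PiTensorProduct.tprod k x : PiTensorProduct k X) = ∏ i, gs k X i (x i) := by
  conv_lhs => rw [← Finset.univ_prod_mulSingle x]
  rw [PiTensorProduct.tprod_prod]
  rfl

theorem g_eq_top (S : Subalgebra k (PiTensorProduct k X)) (h : ∀ i x, gs k X i x ∈ S) :
    S = ⊤ := by
  rw [eq_top_iff]
  rintro y -
  induction y using PiTensorProduct.induction_on with
  | smul_tprod r x =>
    refine Subalgebra.smul_mem _ ?_ r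
    rw [tprod_eq_prod]
    exact Subalgebra.prod_mem _ fun i _ => h i (x i)
  | add x y hx hy => exact Subalgebra.add_mem _ hx hy

theorem g_ext {f g : PiTensorProduct k X →ₐ[k] Y}
    (h : ∀ i x, f (gs k X i x) = g (gs k X i x)) : f = g := by
  have h1 : AlgHom.equalizer f g = ⊤ :=
    g_eq_top (AlgHom.equalizer f g) fun i x => (AlgHom.mem_equalizer f g _).2 (h i x)
  refine AlgHom.ext fun x => ?_
  have : x ∈ AlgHom.equalizer f g := by rw [h1]; trivial
  exact this

end lift

/-- The coordinate ring of the product `Γ₁^{β₁} × ⋯ × Γ_m^{β_m}`, where `Γ_i = Spec (A i)`. -/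
abbrev Prd (k : Type) [Field k] {m : ℕ} (A : Fin m → Type) [∀ i, CommRing (A i)]
    [∀ i, Algebra k (A i)] (β : Fin m → ℕ) : Type :=
  PiTensorProduct k fun s : (Σ i, Fin (β i)) => A s.1

/-- The coordinate ring of the disjoint union of the products `Γ^{α_j}`, `j ∈ κ`. -/
abbrev Uni (k : Type) [Field k] {m : ℕ} (A : Fin m → Type) [∀ i, CommRing (A i)]
    [∀ i, Algebra k (A i)] {κ : Type} (α : κ → Fin m → ℕ) : Type :=
  ∀ j : κ, Prd k A (α j)

variable {k : Type} [Field k] {m : ℕ} (A : Fin m → Type) [∀ i, CommRing (A i)]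
  [∀ i, Algebra k (A i)]

/-- the inclusion of a factor of `Γ^β` -/
noncomputable def ps (k : Type) [Field k] {m : ℕ} (A : Fin m → Type) [∀ i, CommRing (A i)]
    [∀ i, Algebra k (A i)] (β : Fin m → ℕ) (i : Fin m) (a : Fin (β i)) : A i →ₐ[k] Prd k A β :=
  gs k (fun s : (Σ i, Fin (β i)) => A s.1) ⟨i, a⟩

/-- the map out of `Γ^β` given by maps on the factors -/
noncomputable def pl {Y : Type} [CommRing Y] [Algebra k Y] {β : Fin m → ℕ}
    (f : ∀ i, Fin (β i) → (A i →ₐ[k] Y)) : Prd k A β →ₐ[k] Y :=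
  gl fun s : (Σ i, Fin (β i)) => f s.1 s.2

theorem pl_ps {Y : Type} [CommRing Y] [Algebra k Y] {β : Fin m → ℕ}
    (f : ∀ i, Fin (β i) → (A i →ₐ[k] Y)) (i : Fin m) (a : Fin (β i)) (x : A i) :
    pl A f (ps k A β i a x) = f i a x :=
  gl_gs (X := fun s : (Σ i, Fin (β i)) => A s.1) (fun s => f s.1 s.2) ⟨i, a⟩ x

theorem p_eq_top {β : Fin m → ℕ} (S : Subalgebra k (Prd k A β))
    (h : ∀ i a x, ps k A β i a x ∈ S) : S = ⊤ :=
  g_eq_top S fun s x => h s.1 s.2 x

theorem p_ext {Y : Type} [CommRing Y] [Algebra k Y] {β : Fin m → ℕ} {f g : Prd k A β →ₐ[k] Y}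
    (h : ∀ i a x, f (ps k A β i a x) = g (ps k A β i a x)) : f = g :=
  g_ext fun s x => h s.1 s.2 x

/-- `Γ^β × Γ^γ → Γ^{β+γ}` -/
noncomputable def addHom (k : Type) [Field k] {m : ℕ} (A : Fin m → Type) [∀ i, CommRing (A i)]
    [∀ i, Algebra k (A i)] (β γ : Fin m → ℕ) :
    Prd k A β ⊗[k] Prd k A γ →ₐ[k] Prd k A (β + γ) :=
  Algebra.TensorProduct.productMap
      (pl A fun i a => ps k A (β + γ) i (Fin.castAdd (γ i) a))
      (pl A fun i a => ps k A (β + γ) i (Fin.natAdd (β i) a))

/-- `Γ^{β+γ} → Γ^β × Γ^γ` -/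
noncomputable def addInv (k : Type) [Field k] {m : ℕ} (A : Fin m → Type) [∀ i, CommRing (A i)]
    [∀ i, Algebra k (A i)] (β γ : Fin m → ℕ) :
    Prd k A (β + γ) →ₐ[k] Prd k A β ⊗[k] Prd k A γ :=
  pl A fun i c => Fin.addCases (motive := fun _ => A i →ₐ[k] Prd k A β ⊗[k] Prd k A γ)
      (fun a => (Algebra.TensorProduct.includeLeft :
        Prd k A β →ₐ[k] Prd k A β ⊗[k] Prd k A γ).comp (ps k A β i a))
      (fun a => (Algebra.TensorProduct.includeRight :
        Prd k A γ →ₐ[k] Prd k A β ⊗[k] Prd k A γ).comp (ps k A γ i a)) c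

theorem addHom_left (β γ : Fin m → ℕ) (i : Fin m) (a : Fin (β i)) (x : A i) :
    addHom k A β γ (ps k A β i a x ⊗ₜ 1) = ps k A (β + γ) i (Fin.castAdd (γ i) a) x := by
  unfold addHom
  rw [Algebra.TensorProduct.productMap_apply_tmul, map_one, mul_one, pl_ps]

theorem addHom_right (β γ : Fin m → ℕ) (i : Fin m) (a : Fin (γ i)) (x : A i) :
    addHom k A β γ (1 ⊗ₜ ps k A γ i a x) = ps k A (β + γ) i (Fin.natAdd (β i) a) x := by
  unfold addHom
  rw [Algebra.TensorProduct.productMap_apply_tmul, map_one, one_mul, pl_ps]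

theorem addInv_left (β γ : Fin m → ℕ) (i : Fin m) (a : Fin (β i)) (x : A i) :
    addInv k A β γ (ps k A (β + γ) i (Fin.castAdd (γ i) a) x) = ps k A β i a x ⊗ₜ 1 := by
  unfold addInv
  rw [pl_ps, Fin.addCases_left]
  rfl

theorem addInv_right (β γ : Fin m → ℕ) (i : Fin m) (a : Fin (γ i)) (x : A i) :
    addInv k A β γ (ps k A (β + γ) i (Fin.natAdd (β i) a) x) = 1 ⊗ₜ ps k A γ i a x := by
  unfold addInv
  rw [pl_ps, Fin.addCases_right]
  rfl

/-- `Γ^β × Γ^γ = Γ^{β+γ}` -/
noncomputable def prdAdd (k : Type) [Field k] {m : ℕ} (A : Fin m → Type) [∀ i, CommRing (A i)]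
    [∀ i, Algebra k (A i)] (β γ : Fin m → ℕ) :
    Prd k A β ⊗[k] Prd k A γ ≃ₐ[k] Prd k A (β + γ) :=
  AlgEquiv.ofAlgHom (addHom k A β γ) (addInv k A β γ)
    (by
      apply p_ext
      intro i c x
      rw [AlgHom.comp_apply, AlgHom.id_apply]
      refine Fin.addCases (motive := fun c => addHom k A β γ (addInv k A β γ (ps k A (β + γ) i c x)) =
        ps k A (β + γ) i c x) (fun a => ?_) (fun a => ?_) c
      · rw [addInv_left, addHom_left]
      · rw [addInv_right, addHom_right])
    (by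
      apply Algebra.TensorProduct.ext
      · apply p_ext
        intro i a x
        change addInv k A β γ (addHom k A β γ (ps k A β i a x ⊗ₜ 1)) = ps k A β i a x ⊗ₜ 1
        rw [addHom_left, addInv_left]
      · apply p_ext
        intro i a x
        change addInv k A β γ (addHom k A β γ (1 ⊗ₜ ps k A γ i a x)) = 1 ⊗ₜ ps k A γ i a x
        rw [addHom_right, addInv_right])

/-- `Γ^0` is a point -/
noncomputable def prdZero (k : Type) [Field k] {m : ℕ} (A : Fin m → Type)
    [∀ i, CommRing (A i)] [∀ i, Algebra k (A i)] : Prd k A 0 ≃ₐ[k] k :=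
  AlgEquiv.ofAlgHom (pl A fun _ a => (a : Fin 0).elim0) (Algebra.ofId k _)
    (by ext)
    (by
      apply p_ext
      intro i a
      exact (a : Fin 0).elim0)

variable [∀ i, Module.Finite k (A i)]

theorem finrank_prd (β : Fin m → ℕ) :
    Module.finrank k (Prd k A β) = ∏ i, Module.finrank k (A i) ^ β i := by
  classical
  let b := fun s : (Σ i, Fin (β i)) => Module.finBasis k (A s.1)
  rw [Module.finrank_eq_card_basis (Basis.piTensorProduct b)]
  rw [Fintype.card_pi, Fintype.prod_sigma]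
  refine Finset.prod_congr rfl fun i _ => ?_
  change ∏ _x : Fin (β i), Fintype.card (Fin (Module.finrank k (A i))) = _
  rw [Finset.prod_const, Finset.card_univ, Fintype.card_fin, Fintype.card_fin]

end Pool.Agent.H67.AS
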