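import Pool.Agent.H67.AS.Alg

/-!
# Two schemes
-/

set_option autoImplicit false
set_option linter.unusedSectionVars false

namespace Pool.Agent.H67.AS

open scoped TensorProduct PowerSeries Topology
open Pool.Agent.H826R3.SM Pool.Agent.TH671.DU
open Filter

section single

variable {k : Type} [Field k] {m : ℕ} (A : Fin m → Type) [∀ i, CommRing (A i)]
  [∀ i, Algebra k (A i)]

/-- the identity between equal members of the family -/
noncomputable def castHom (k : Type) [Field k] {m : ℕ} (A : Fin m → Type) [∀ i, CommRing (A i)]
    [∀ i, Algebra k (A i)] {i j : Fin m} (h : i = j) : A i →ₐ[k] A j := by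
  subst h
  exact AlgHom.id k (A i)

theorem single_elim {i j : Fin m} (a : Fin ((Pi.single j 1 : Fin m → ℕ) i)) : i = j := by
  by_contra h
  have h1 : (Pi.single j 1 : Fin m → ℕ) i = 0 := by rw [Pi.single_eq_of_ne h]
  have := a.isLt
  omega

theorem single_lt (j : Fin m) : 0 < (Pi.single j 1 : Fin m → ℕ) j := by
  rw [Pi.single_eq_same]
  exact Nat.one_pos

/-- one copy of one scheme -/
noncomputable def prdSingle (k : Type) [Field k] {m : ℕ} (A : Fin m → Type)
    [∀ i, CommRing (A i)] [∀ i, Algebra k (A i)] (j : Fin m) :
    Prd k A (Pi.single j 1) ≃ₐ[k] A j :=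
  AlgEquiv.ofAlgHom (pl A fun _ a => castHom k A (single_elim a))
    (ps k A (Pi.single j 1) j ⟨0, single_lt j⟩)
    (by
      ext x
      rw [AlgHom.comp_apply, pl_ps]
      rfl)
    (by
      apply p_ext
      intro i a x
      rw [AlgHom.comp_apply, pl_ps, AlgHom.id_apply]
      obtain rfl := single_elim a
      have h1 : a = ⟨0, single_lt i⟩ := by
        have h2 : (Pi.single i 1 : Fin m → ℕ) i = 1 := Pi.single_eq_same i 1
        have h3 := a.isLt
        rw [Fin.ext_iff]
        change a.val = 0
        omega
      rw [h1]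
      rfl)

end single

/-- the family of two types -/
def Two (A B : Type) : Fin 2 → Type
  | 0 => A
  | 1 => B

section two

variable (k : Type) [Field k] (A B : Type) [CommRing A] [Algebra k A] [CommRing B] [Algebra k B]

instance instTwoRing : ∀ i, CommRing (Two A B i)
  | 0 => inferInstanceAs (CommRing A)
  | 1 => inferInstanceAs (CommRing B)

instance instTwoAlg : ∀ i, Algebra k (Two A B i)
  | 0 => inferInstanceAs (Algebra k A)
  | 1 => inferInstanceAs (Algebra k B)

instance instTwoFin [Module.Finite k A] [Module.Finite k B] : ∀ i, Module.Finite k (Two A B i)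
  | 0 => inferInstanceAs (Module.Finite k A)
  | 1 => inferInstanceAs (Module.Finite k B)

instance instTwoNt [Nontrivial A] [Nontrivial B] : ∀ i, Nontrivial (Two A B i)
  | 0 => inferInstanceAs (Nontrivial A)
  | 1 => inferInstanceAs (Nontrivial B)

/-- the disjoint union -/
noncomputable def twoPi : (∀ i, Two A B i) ≃ₐ[k] A × B :=
  AlgEquiv.ofBijective ((Pi.evalAlgHom k (Two A B) 0).prod (Pi.evalAlgHom k (Two A B) 1)) (by
    constructor
    · intro f g h
      funext i
      match i with
      | 0 => exact congrArg Prod.fst h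
      | 1 => exact congrArg Prod.snd h
    · rintro ⟨a, b⟩
      exact ⟨fun i => match i with
        | 0 => a
        | 1 => b, rfl⟩)

/-- the disjoint union -/
noncomputable def twoUni :
    Uni k (Two A B) (fun j : Fin 2 => Pi.single j 1) ≃ₐ[k] A × B :=
  (AlgEquiv.piCongrRight fun j => prdSingle k (Two A B) j).trans (twoPi k A B)

/-- the factors -/
noncomputable def twoFac (β : Fin 2 → ℕ) :
    ∀ i, Fin (β i) → (Two A B i →ₐ[k] Pow k A (β 0) ⊗[k] Pow k B (β 1))
  | 0 => fun a => (Algebra.TensorProduct.includeLeft :
      Pow k A (β 0) →ₐ[k] Pow k A (β 0) ⊗[k] Pow k B (β 1)).comp (sg k A a)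
  | 1 => fun a => (Algebra.TensorProduct.includeRight :
      Pow k B (β 1) →ₐ[k] Pow k A (β 0) ⊗[k] Pow k B (β 1)).comp (sg k B a)

/-- the inclusions -/
noncomputable def ps0 (β : Fin 2 → ℕ) (a : Fin (β 0)) : A →ₐ[k] Prd k (Two A B) β :=
  ps k (Two A B) β 0 a

/-- the inclusions -/
noncomputable def ps1 (β : Fin 2 → ℕ) (a : Fin (β 1)) : B →ₐ[k] Prd k (Two A B) β :=
  ps k (Two A B) β 1 a

/-- the product -/
noncomputable def twoPrd (β : Fin 2 → ℕ) :
    Prd k (Two A B) β ≃ₐ[k] Pow k A (β 0) ⊗[k] Pow k B (β 1) :=
  AlgEquiv.ofAlgHom (pl (Two A B) (twoFac k A B β))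
    (Algebra.TensorProduct.productMap (powLift fun a => ps0 k A B β a)
      (powLift fun a => ps1 k A B β a))
    (by
      apply Algebra.TensorProduct.ext
      · apply pow_ext
        intro a x
        change pl (Two A B) (twoFac k A B β) (Algebra.TensorProduct.productMap
          (powLift fun a => ps0 k A B β a) (powLift fun a => ps1 k A B β a)
            (sg k A a x ⊗ₜ 1)) = sg k A a x ⊗ₜ 1
        rw [Algebra.TensorProduct.productMap_apply_tmul, map_one, mul_one, powLift_single]
        exact pl_ps (Two A B) (twoFac k A B β) 0 a x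
      · apply pow_ext
        intro a x
        change pl (Two A B) (twoFac k A B β) (Algebra.TensorProduct.productMap
          (powLift fun a => ps0 k A B β a) (powLift fun a => ps1 k A B β a)
            (1 ⊗ₜ sg k B a x)) = 1 ⊗ₜ sg k B a x
        rw [Algebra.TensorProduct.productMap_apply_tmul, map_one, one_mul, powLift_single]
        exact pl_ps (Two A B) (twoFac k A B β) 1 a x)
    (by
      apply p_ext
      intro i a x
      rw [AlgHom.comp_apply, pl_ps, AlgHom.id_apply]
      match i with
      | 0 =>
        change Algebra.TensorProduct.productMap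
          (powLift fun a => ps0 k A B β a) (powLift fun a => ps1 k A B β a)
            (sg k A a x ⊗ₜ 1) = _
        rw [Algebra.TensorProduct.productMap_apply_tmul, map_one, mul_one]
        exact powLift_single (fun a => ps0 k A B β a) a x
      | 1 =>
        change Algebra.TensorProduct.productMap
          (powLift fun a => ps0 k A B β a) (powLift fun a => ps1 k A B β a)
            (1 ⊗ₜ sg k B a x) = _
        rw [Algebra.TensorProduct.productMap_apply_tmul, map_one, one_mul]
        exact powLift_single (fun a => ps1 k A B β a) a x)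

end two

end Pool.Agent.H67.AS
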