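import Pool.Agent.H67.AS.HB

/-!
# The growth rate of a disjoint union is the maximum of a polynomial on the body
-/

set_option autoImplicit false
set_option linter.unusedSectionVars false

namespace Pool.Agent.H67.AS

open scoped Topology
open Pool.Agent.TH671.DU
open Filter

variable {m : ℕ} {G : (Fin m → ℕ) → ℕ} (hG : Sub G)
variable {κ : Type} [Fintype κ] (α : κ → Fin m → ℕ)

/-- the polynomial of a disjoint union -/
noncomputable def pol (α : κ → Fin m → ℕ) (x : Fin m → ℝ) : ℝ := ∑ j, mon x (α j)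

theorem pol_pow (x : Fin m → ℝ) (n : ℕ) :
    pol α x ^ n = ∑ f : Fin n → κ, mon x (∑ t, α (f t)) := by
  unfold pol
  rw [Fintype.sum_pow]
  exact Finset.sum_congr rfl fun f _ => (mon_sum _ _ _).symm

theorem sum_fiber {T : Type} [Fintype T] [DecidableEq κ] (f : T → κ) :
    ∑ t, α (f t) = ∑ j, (Finset.univ.filter fun t => f t = j).card • α j := by
  rw [← Finset.sum_fiberwise Finset.univ f]
  refine Finset.sum_congr rfl fun j _ => ?_
  rw [Finset.sum_congr rfl (g := fun _ => α j), Finset.sum_const]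
  intro t ht
  rw [(Finset.mem_filter.1 ht).2]

theorem prod_fiber {T : Type} [Fintype T] [DecidableEq κ] (f : T → κ) (y : κ → ℝ) :
    ∏ t, y (f t) = ∏ j, y j ^ (Finset.univ.filter fun t => f t = j).card := by
  rw [← Finset.prod_fiberwise Finset.univ f]
  refine Finset.prod_congr rfl fun j _ => ?_
  rw [Finset.prod_congr rfl (g := fun _ => y j), Finset.prod_const]
  intro t ht
  rw [(Finset.mem_filter.1 ht).2]

include hG

theorem Sub.R_le (β : Fin m → ℕ) : R G β ≤ G β := by
  have := hG.R_pow_le β 1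
  rwa [pow_one, one_smul] at this

theorem Sub.pol_le {x : Fin m → ℝ} (hx : x ∈ K (R G)) : pol α x ≤ U G α := by
  refine le_irate _ _ (Finset.sum_nonneg fun j _ => mon_nonneg hx.1 _) fun n => ?_
  rw [pol_pow]
  push_cast
  exact Finset.sum_le_sum fun f _ => (hx.2 _).trans (hG.R_le _)

theorem Sub.U_pow_le (n : ℕ) : U G α ^ n ≤ ((∑ f : Fin n → κ, G (∑ t, α (f t)) : ℕ) : ℝ) := by
  cases n with
  | zero =>
    rw [pow_zero]
    simp [hG.zero]
  | succ n => exact irate_pow_le (fun n => ∑ f : Fin n → κ, G (∑ t, α (f t))) n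

theorem Sub.U_le_sum [Nonempty κ] : U G α ≤ ∑ j, R G (α j) := by
  classical
  have h1 : ∀ j, 1 ≤ R G (α j) := fun j => hG.one_le_R _
  have hη : ∀ η : ℝ, 0 < η → U G α ≤ ∑ j, (R G (α j) + η) := by
    intro η hη
    choose C hC h using fun j => hG.growth (α j) η hη
    refine irate_le_of_growth _ (∏ j, C j) _ (Finset.prod_nonneg fun j _ => hC j)
      (Finset.sum_pos (fun j _ => by linarith [h1 j]) Finset.univ_nonempty) fun n => ?_
    rw [Fintype.sum_pow, Finset.mul_sum]
    push_cast
    refine Finset.sum_le_sum fun f _ => ?_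
    rw [prod_fiber f fun j => R G (α j) + η, ← Finset.prod_mul_distrib, sum_fiber]
    refine le_trans (b := ((∏ j, G ((Finset.univ.filter fun t => f t = j).card • α j) : ℕ) : ℝ))
      ?_ ?_
    · exact_mod_cast hG.sum_le Finset.univ _
    · push_cast
      exact Finset.prod_le_prod (fun j _ => Nat.cast_nonneg _) fun j _ => h j _
  have hc : Tendsto (fun η : ℝ => ∑ j, (R G (α j) + η)) (𝓝[>] 0)
      (𝓝 (∑ j, (R G (α j) + 0))) := by
    have h3 : Continuous fun η : ℝ => ∑ j, (R G (α j) + η) := by fun_prop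
    exact (h3.tendsto 0).mono_left nhdsWithin_le_nhds
  simp only [add_zero] at hc
  exact ge_of_tendsto hc (eventually_nhdsWithin_of_forall fun η h => hη η h)

theorem Sub.U_pow_le_words (N : ℕ) :
    U G α ^ N ≤ U G (fun w : Fin N → κ => ∑ t, α (w t)) := by
  have h0 : 0 ≤ U G α := irate_nonneg _
  refine le_irate _ _ (by positivity) fun n => ?_
  change _ ≤ ((∑ F : Fin (n + 1) → (Fin N → κ), G (∑ s, ∑ t, α (F s t)) : ℕ) : ℝ)
  rw [← pow_mul, mul_comm]
  refine (hG.U_pow_le α _).trans (le_of_eq ?_)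
  congr 1
  let e : (Fin ((n + 1) * N) → κ) ≃ (Fin (n + 1) → Fin N → κ) :=
    (finProdFinEquiv.symm.arrowCongr (Equiv.refl κ)).trans (Equiv.curry _ _ _)
  refine Fintype.sum_equiv e _ _ fun f => ?_
  congr 1
  rw [← Fintype.sum_prod_type' (f := fun s t => α (e f s t)),
    ← Equiv.sum_comp finProdFinEquiv (fun t => α (f t))]
  rfl

/-- **Upper bound.** -/
theorem Sub.U_le [Nonempty κ] {P : ℝ} (hP : ∀ x ∈ K (R G), pol α x ≤ P) : U G α ≤ P := by
  classical
  obtain ⟨x₀, hx₀, hx₀1, -⟩ := hG.exists_mem_K 0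
  have hP1 : 1 ≤ P := by
    refine le_trans ?_ (hP x₀ hx₀)
    obtain ⟨j⟩ : Nonempty κ := inferInstance
    have h1 : (1 : ℝ) ≤ mon x₀ (α j) := by
      unfold mon
      have : ∏ _i : Fin m, (1 : ℝ) ≤ ∏ i, x₀ i ^ α j i :=
        Finset.prod_le_prod (fun _ _ => zero_le_one) fun i _ => one_le_pow₀ (hx₀1 i)
      rwa [Finset.prod_const_one] at this
    exact h1.trans (Finset.single_le_sum (f := fun j => mon x₀ (α j))
      (fun j _ => mon_nonneg hx₀.1 _) (Finset.mem_univ j))
  choose xx hxx _ hxxe using hG.exists_mem_K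
  set a : ℕ := ∑ j, ∑ i, α j i with ha
  have haj : ∀ j i, α j i ≤ a := by
    intro j i
    refine (Finset.single_le_sum (f := fun i => α j i) (fun i _ => Nat.zero_le _)
      (Finset.mem_univ i)).trans ?_
    exact Finset.single_le_sum (f := fun j => ∑ i, α j i) (fun i _ => Nat.zero_le _)
      (Finset.mem_univ j)
  have key : ∀ N : ℕ, U G α ^ N ≤ ((N * a + 1 : ℕ) : ℝ) ^ m * P ^ N := by
    intro N
    refine (hG.U_pow_le_words α N).trans ((hG.U_le_sum _).trans ?_)
    let b : (Fin N → κ) → (Fin m → ℕ) := fun w => ∑ t, α (w t)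
    let S : Finset (Fin m → ℕ) := Fintype.piFinset fun _ => Finset.range (N * a + 1)
    have hb : ∀ w ∈ Finset.univ, b w ∈ S := by
      intro w _
      rw [Fintype.mem_piFinset]
      intro i
      rw [Finset.mem_range]
      have : b w i ≤ ∑ _t : Fin N, a := by
        change (∑ t, α (w t)) i ≤ _
        rw [Finset.sum_apply]
        exact Finset.sum_le_sum fun t _ => haj _ _
      rw [Finset.sum_const, Finset.card_univ, Fintype.card_fin, smul_eq_mul] at this
      omega
    change ∑ w, R G (b w) ≤ _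
    rw [← Finset.sum_fiberwise_of_maps_to hb]
    have hcard : ((N * a + 1 : ℕ) : ℝ) ^ m = (S.card : ℝ) := by
      rw [Fintype.card_piFinset]
      simp
    rw [hcard, ← nsmul_eq_mul]
    refine Finset.sum_le_card_nsmul _ _ _ fun β _ => ?_
    refine le_trans ?_ (pow_le_pow_left₀ (Finset.sum_nonneg fun j _ => mon_nonneg (hxx β).1 _)
      (hP (xx β) (hxx β)) N)
    change _ ≤ pol α (xx β) ^ N
    rw [pol_pow]
    refine le_trans (le_of_eq ?_) (Finset.sum_le_univ_sum_of_nonneg
      (s := Finset.univ.filter fun w => b w = β) fun w => mon_nonneg (hxx β).1 _)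
    refine Finset.sum_congr rfl fun w hw => ?_
    have : b w = β := (Finset.mem_filter.1 hw).2
    change R G (b w) = mon (xx β) (b w)
    rw [this, hxxe]
  by_contra hcon
  push Not at hcon
  have hP0 : 0 < P := by linarith
  have hr : 1 < U G α / P := (one_lt_div hP0).2 hcon
  have hN : ∀ N : ℕ, 1 ≤ N → (U G α / P) ^ N ≤ ((a : ℝ) + 1) ^ m * (N : ℝ) ^ m := by
    intro N hN
    rw [div_pow, div_le_iff₀ (by positivity), ← mul_pow]
    refine (key N).trans (mul_le_mul_of_nonneg_right ?_ (by positivity))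
    refine pow_le_pow_left₀ (Nat.cast_nonneg _) ?_ m
    push_cast
    have : (1 : ℝ) ≤ N := by exact_mod_cast hN
    nlinarith
  have ht := tendsto_pow_const_div_const_pow_of_one_lt m hr
  have hC : (0 : ℝ) < ((a : ℝ) + 1) ^ m := by positivity
  have h1 := (ht.eventually_lt_const (show (0 : ℝ) < (((a : ℝ) + 1) ^ m)⁻¹ by positivity)).and
    (eventually_ge_atTop 1)
  obtain ⟨N, h2, h3⟩ := h1.exists
  have h4 := hN N h3
  have h5 : 0 < (U G α / P) ^ N := by positivity
  rw [div_lt_iff₀ h5, lt_inv_mul_iff₀ hC] at h2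
  linarith

end Pool.Agent.H67.AS
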